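import Mathlib
import Pool.Agent.Work.MP_68919f_an.Defs
import Pool.Agent.Work.MP_68919f_an.Main

/-!
# Smooth bounded pseudoconvex domains without a quasi triangle inequality for the Lempert function

In every dimension `n ≥ 2` there is a bounded pseudoconvex domain with a `C^∞` boundary whose
Lempert function satisfies no quasi triangle inequality.

The domain is the complete Reinhardt domain of all `v` with
`|v_1|^2 + ... + |v_{n-1}|^2 + Ψ(v_0) < 1`, where `Ψ(z) = ∑_k a_k λ(2 log(|z| / ε_k))`,
`λ(t) = t exp(-1 / t)` for `t > 0` and `λ(t) = 0` for `t ≤ 0`, `ε_k = exp(-(k+1)!)`, and the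
coefficients `a_k > 0` decrease to zero very fast. Near the boundary point `(0, 1, 0, ...)`, at the
distance `δ = a_k log(ε_{k-1} / ε_k)` from it, the domain contains discs of radius `ε_{k-1} / e` in
the direction `v_0` and of radius `δ` in the direction `v_1`. For a holomorphic disc `(f, g)`
through that point in a direction comparable to `(ε_{k-1}, δ)`, Jensen's inequality for `log |f|`
forces the positive harmonic function `1 - Re g` to be nearly constant, as
`log (1 / ε_{k-1})` is small compared with `log (ε_{k-1} / ε_k)`.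

The definitions are in `Pool/Agent/Work/MP_68919f_an/Defs.lean`.
-/

namespace Pool.Agent.Results.MP_68919f_an.SmoothNoQTI

open scoped ContDiff
open Pool.Agent.Work.MP_68919f_an

/-- In every dimension `n ≥ 2` there is a bounded pseudoconvex domain `D` with a `C^∞` boundary such
that for every `C ≥ 1` there are `x, y, z ∈ D` with `ℓ_D(x,z) > C (ℓ_D(x,y) + ℓ_D(y,z))`. -/
theorem result (n : ℕ) (hn : 2 ≤ n) : ∃ D : Set (Fin n → ℂ),
    IsOpen D ∧ IsConnected D ∧ Bornology.IsBounded D ∧ IsPseudoconvex D ∧
    HasBoundaryOfClass ∞ D ∧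
    ∀ C : ℝ, 1 ≤ C → ∃ x ∈ D, ∃ y ∈ D, ∃ z ∈ D,
      C * (lempert D x y + lempert D y z) < lempert D x z := by
  obtain ⟨D, h1, h2, h3, h4, h5, h6⟩ := main n hn
  refine ⟨D, h1, h2, h3, h4, h5, fun C hC => ?_⟩
  by_contra hcon
  push Not at hcon
  exact h6 ⟨C, hC, hcon⟩

end Pool.Agent.Results.MP_68919f_an.SmoothNoQTI
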